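import Mathlib
import Pool.Agent.TH949.TX.Defs

set_option autoImplicit false

open Complex MeasureTheory Set Filter Topology
open Pool.Agent.W189.TP (DS)

namespace Pool.Agent.TH443.TXExtract

open Pool.Agent.TH949.TX

theorem ds_deriv {ι : Type*} {d L : ι → ℝ} (hL : ∀ i, 0 ≤ L i)
    (habs : ∀ t : ℝ, 1 < t → Summable fun i => |d i| * Real.exp (-(t * L i)))
    {s : ℂ} (hs : 1 < s.re) : deriv (DS d L) s = -ZZ d L s := by
  have h2 : 1 < (1 + s.re) / 2 := by linarith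
  have hsm : s ∈ {w : ℂ | (1 + s.re) / 2 < w.re} := by
    show (1 + s.re) / 2 < s.re
    linarith
  have h := Complex.hasSum_deriv_of_summable_norm
    (F := fun i w => (d i : ℂ) * Complex.exp (-(w * L i))) (habs _ h2) (fun i => by fun_prop)
    (isOpen_lt continuous_const Complex.continuous_re) (fun i w hw => by
      rw [Pool.Agent.W189.TP.norm_term]
      have := hL i
      have hw' : (1 + s.re) / 2 < w.re := hw
      gcongr) hsm
  have h1 : deriv (DS d L) s = ∑' i, deriv (fun w : ℂ => (d i : ℂ) * Complex.exp (-(w * L i))) s :=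
    h.tsum_eq.symm
  rw [h1, ZZ, DS, ← tsum_neg]
  refine tsum_congr fun i => ?_
  have h3 : HasDerivAt (fun w : ℂ => (d i : ℂ) * Complex.exp (-(w * L i)))
      ((d i : ℂ) * (Complex.exp (-(s * L i)) * (-(1 * (L i : ℂ))))) s :=
    (((hasDerivAt_id s).mul_const (L i : ℂ)).fun_neg.cexp).const_mul (d i : ℂ)
  rw [h3.deriv]
  push_cast
  ring

theorem near_exp {F G : ℂ → ℂ} (hE : ∀ s : ℂ, 1 < s.re → F s = G s) {s : ℂ} (hs : 1 < s.re) :
    F =ᶠ[𝓝 s] G := by
  filter_upwards [(isOpen_lt continuous_const Complex.continuous_re).mem_nhds hs] with w hw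
  exact hE w hw

theorem t_extract {ι : Type*} [Countable ι] {d L : ι → ℝ} (hL : ∀ i, 0 ≤ L i)
    (habs : ∀ t : ℝ, 1 < t → Summable fun i => |d i| * Real.exp (-(t * L i)))
    {F : ℂ → ℂ} (hF : MeromorphicOn F univ) (hE : ∀ s : ℂ, 1 < s.re → F s = cexp (DS d L s))
    {c H : ℝ} (hc : c < 1) (hH : 0 < H) :
    ∃ (Z : Finset ℂ) (m : ℂ → ℤ) (h : ℂ → ℂ),
      (∀ ρ ∈ Z, c ≤ ρ.re ∧ ρ.re ≤ 1 ∧ |ρ.im| ≤ H ∧ meromorphicOrderAt F ρ = m ρ ∧ m ρ ≠ 0) ∧
      (∀ ρ : ℂ, c ≤ ρ.re → |ρ.im| ≤ H → meromorphicOrderAt F ρ ≠ 0 → ρ ∈ Z) ∧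
      (∀ s ∈ Icc c 2 ×ℂ Icc (-H) H, DifferentiableAt ℂ h s) ∧
      ∀ s : ℂ, 1 < s.re → s.re ≤ 2 → |s.im| ≤ H →
        h s = ZZ d L s + ∑ ρ ∈ Z, (m ρ : ℂ) / (s - ρ) := by
  classical
  have hdiff := Pool.Agent.W189.TP.DS_diff hL habs
  have hop : IsOpen {s : ℂ | 1 < s.re} := isOpen_lt continuous_const Complex.continuous_re
  have hexp : ∀ s : ℂ, 1 < s.re → AnalyticAt ℂ (fun w => cexp (DS d L w)) s := fun s hs =>
    (hdiff.cexp).analyticAt (hop.mem_nhds hs)
  have hFan : ∀ s : ℂ, 1 < s.re → AnalyticAt ℂ F s := fun s hs =>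
    (hexp s hs).congr (near_exp hE hs).symm
  have hord0 : ∀ s : ℂ, 1 < s.re → meromorphicOrderAt F s = 0 := fun s hs => by
    rw [(hFan s hs).meromorphicOrderAt_eq, (hFan s hs).analyticOrderAt_eq_zero.2
      (by rw [hE s hs]; exact Complex.exp_ne_zero _)]
    simp
  have hFm : Meromorphic F := meromorphicOn_univ.1 hF
  have htop : ∀ u : ℂ, meromorphicOrderAt F u ≠ ⊤ := by
    refine hFm.exists_meromorphicOrderAt_ne_top_iff_forall.1 ⟨2, ?_⟩
    rw [hord0 2 (by norm_num)]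
    exact WithTop.zero_ne_top
  set U : Set ℂ := Icc (c - 1) 3 ×ℂ Icc (-(H + 1)) (H + 1) with hU
  have hUc : IsCompact U := isCompact_Icc.reProdIm isCompact_Icc
  have hFU : MeromorphicOn F U := fun z _ => hF z (mem_univ z)
  set D := MeromorphicOn.divisor F U with hD
  have hfin : D.support.Finite := D.finiteSupport hUc
  have hDv : ∀ u ∈ U, D u = (meromorphicOrderAt F u).untop₀ := fun u hu => by
    rw [hD, MeromorphicOn.divisor_apply hFU hu]
  have hDc : ∀ u ∈ U, ((D u : ℤ) : WithTop ℤ) = meromorphicOrderAt F u := fun u hu => by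
    rw [hDv u hu]
    exact WithTop.coe_untop₀_of_ne_top (htop u)
  obtain ⟨g, hg1, hg2, hg3⟩ := hFU.extract_zeros_poles (fun u => htop u) hfin
  set S : Finset ℂ := hfin.toFinset with hS
  have hSU : ∀ u ∈ S, u ∈ U ∧ D u ≠ 0 := fun u hu => by
    rw [hS, Set.Finite.mem_toFinset] at hu
    exact ⟨D.supportWithinDomain hu, hu⟩
  have hre : ∀ u ∈ S, u.re ≤ 1 := fun u hu => by
    by_contra hlt
    push Not at hlt
    have h1 := hDc u (hSU u hu).1
    rw [hord0 u hlt] at h1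
    exact (hSU u hu).2 (by exact_mod_cast h1)
  have hφ : (∏ᶠ u, (fun z : ℂ => z - u) ^ D u) = ∏ u ∈ S, (fun z : ℂ => z - u) ^ D u := by
    refine finprod_eq_prod_of_mulSupport_subset _ fun u hu => ?_
    rw [Finset.mem_coe, hS, Set.Finite.mem_toFinset, Function.mem_support]
    intro h0
    apply hu
    simp only
    rw [h0, zpow_zero]
  set Z : Finset ℂ := S.filter (fun u => c ≤ u.re ∧ |u.im| ≤ H) with hZ
  have hZm : ∀ u, u ∈ Z ↔ u ∈ S ∧ c ≤ u.re ∧ |u.im| ≤ H := fun u => by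
    rw [hZ, Finset.mem_filter]
  have hRU : ∀ s ∈ Icc c 2 ×ℂ Icc (-H) H, s ∈ U ∧ U ∈ 𝓝 s := by
    intro s hs
    rw [Complex.mem_reProdIm, mem_Icc, mem_Icc] at hs
    obtain ⟨⟨a1, a2⟩, a3, a4⟩ := hs
    have hV : IsOpen (Ioo (c - 1) 3 ×ℂ Ioo (-(H + 1)) (H + 1)) := isOpen_Ioo.reProdIm isOpen_Ioo
    have hsV : s ∈ Ioo (c - 1) 3 ×ℂ Ioo (-(H + 1)) (H + 1) := by
      rw [Complex.mem_reProdIm, mem_Ioo, mem_Ioo]
      exact ⟨⟨by linarith, by linarith⟩, by linarith, by linarith⟩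
    have hVU : Ioo (c - 1) 3 ×ℂ Ioo (-(H + 1)) (H + 1) ⊆ U := by
      intro w hw
      rw [Complex.mem_reProdIm] at hw
      rw [hU, Complex.mem_reProdIm]
      exact ⟨Ioo_subset_Icc_self hw.1, Ioo_subset_Icc_self hw.2⟩
    exact ⟨hVU hsV, mem_of_superset (hV.mem_nhds hsV) hVU⟩
  refine ⟨Z, fun u => D u, fun s => -logDeriv g s - ∑ u ∈ S \ Z, (D u : ℂ) / (s - u),
    ?_, ?_, ?_, ?_⟩
  · intro ρ hρ
    obtain ⟨h1, h2, h3⟩ := (hZm ρ).1 hρ
    exact ⟨h2, hre ρ h1, h3, (hDc ρ (hSU ρ h1).1).symm, (hSU ρ h1).2⟩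
  · intro ρ h1 h2 h3
    have h4 : ρ.re ≤ 1 := by
      by_contra hlt
      push Not at hlt
      exact h3 (hord0 ρ hlt)
    have hρU : ρ ∈ U := (hRU ρ (by
      rw [Complex.mem_reProdIm, mem_Icc, mem_Icc]
      have := abs_le.1 h2
      exact ⟨⟨h1, by linarith⟩, this.1, this.2⟩)).1
    rw [hZm]
    refine ⟨?_, h1, h2⟩
    rw [hS, Set.Finite.mem_toFinset, Function.mem_support]
    intro h0
    have h5 := hDc ρ hρU
    rw [h0] at h5
    exact h3 (by rw [← h5]; rfl)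
  · intro s hs
    obtain ⟨hsU, -⟩ := hRU s hs
    rw [Complex.mem_reProdIm, mem_Icc, mem_Icc] at hs
    have hg0 := hg2 ⟨s, hsU⟩
    have hga := hg1 s hsU
    have h1 : DifferentiableAt ℂ (fun s => logDeriv g s) s := by
      have : (fun s => logDeriv g s) = fun s => deriv g s / g s := by
        funext w; rw [logDeriv_apply]
      rw [this]
      exact hga.deriv.differentiableAt.div hga.differentiableAt hg0
    refine h1.fun_neg.sub (DifferentiableAt.fun_sum fun u hu => ?_)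
    rw [Finset.mem_sdiff, hZm] at hu
    have hne : s - u ≠ 0 := by
      intro h0
      have h2 : s = u := sub_eq_zero.1 h0
      apply hu.2
      rw [← h2]
      refine ⟨by rw [h2]; exact hu.1, hs.1.1, abs_le.2 ⟨hs.2.1, hs.2.2⟩⟩
    exact (differentiableAt_const _).div (differentiableAt_id.sub_const u) hne
  · intro s h1 h2 h3
    have hsR : s ∈ Icc c 2 ×ℂ Icc (-H) H := by
      rw [Complex.mem_reProdIm, mem_Icc, mem_Icc]
      have := abs_le.1 h3
      exact ⟨⟨by linarith, h2⟩, this.1, this.2⟩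
    obtain ⟨hsU, hsN⟩ := hRU s hsR
    have hne : ∀ u ∈ S, s - u ≠ 0 := fun u hu h0 => by
      have h4 : s = u := sub_eq_zero.1 h0
      have h5 := hre u hu
      rw [← h4] at h5
      linarith
    have hg0 := hg2 ⟨s, hsU⟩
    have hga := hg1 s hsU
    set P : ℂ → ℂ := fun z => ∏ u ∈ S, (fun w : ℂ => (w - u) ^ D u) z with hP
    have hfac : ∀ u ∈ S, DifferentiableAt ℂ (fun w : ℂ => (w - u) ^ D u) s := fun u hu =>
      (differentiableAt_id.sub_const u).zpow (Or.inl (hne u hu))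
    have hfa : ∀ u ∈ S, AnalyticAt ℂ (fun w : ℂ => (w - u) ^ D u) s := fun u hu =>
      (analyticAt_id.sub analyticAt_const).fun_zpow (hne u hu)
    have hPa : AnalyticAt ℂ P s := Finset.analyticAt_fun_prod S hfa
    have hfne : ∀ u ∈ S, (s - u) ^ D u ≠ 0 := fun u hu => zpow_ne_zero _ (hne u hu)
    have hPne : P s ≠ 0 := Finset.prod_ne_zero_iff.2 hfne
    have hev : ∀ᶠ z in 𝓝[≠] s, F z = P z * g z := by
      have h4 := (mem_codiscreteWithin.1 hg3) s hsU
      rw [Filter.disjoint_principal_right] at h4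
      filter_upwards [h4, mem_nhdsWithin_of_mem_nhds hsN] with z hz hzU
      by_contra hcon
      apply hz
      refine ⟨hzU, fun hz2 => hcon ?_⟩
      have h5 : F z = ((∏ᶠ u, (fun z : ℂ => z - u) ^ D u) • g) z := hz2
      rw [hφ] at h5
      rw [h5, Pi.smul_apply', smul_eq_mul, Finset.prod_apply]
      rfl
    have hev2 : F =ᶠ[𝓝 s] fun z => P z * g z :=
      ((hFan s h1).frequently_eq_iff_eventually_eq (hPa.mul hga)).1 hev.frequently
    have hl1 : logDeriv F s = deriv F s / F s := logDeriv_apply F s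
    have e1 : logDeriv F s = -ZZ d L s := by
      rw [logDeriv_apply, (near_exp hE h1).deriv_eq, hE s h1]
      have h4 : HasDerivAt (DS d L) (-ZZ d L s) s := by
        rw [← ds_deriv hL habs h1]
        exact (hdiff.differentiableAt (hop.mem_nhds h1)).hasDerivAt
      rw [h4.cexp.deriv]
      field_simp
    have e2 : logDeriv F s = ∑ u ∈ S, (D u : ℂ) / (s - u) + logDeriv g s := by
      have h4 : logDeriv F s = logDeriv (fun z => P z * g z) s := by
        rw [logDeriv_apply, logDeriv_apply, hev2.deriv_eq, hev2.eq_of_nhds]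
      rw [h4, logDeriv_mul s hPne hg0 hPa.differentiableAt hga.differentiableAt]
      congr 1
      rw [hP, logDeriv_prod (f := fun (u : ℂ) (w : ℂ) => (w - u) ^ D u) hfne hfac]
      refine Finset.sum_congr rfl fun u hu => ?_
      have h5 : HasDerivAt (fun w : ℂ => w - u) 1 s := (hasDerivAt_id s).sub_const u
      rw [logDeriv_fun_zpow (f := fun w : ℂ => w - u) h5.differentiableAt, logDeriv_apply,
        h5.deriv]
      ring
    have e3 : ∑ u ∈ S \ Z, (D u : ℂ) / (s - u) + ∑ u ∈ Z, (D u : ℂ) / (s - u) =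
        ∑ u ∈ S, (D u : ℂ) / (s - u) := Finset.sum_sdiff (Finset.filter_subset _ _)
    show -logDeriv g s - ∑ u ∈ S \ Z, (D u : ℂ) / (s - u) = _
    rw [e1] at e2
    linear_combination e2 - e3

end Pool.Agent.TH443.TXExtract
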