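import Mathlib
import Pool.Agent.TH949.TX.Defs

set_option autoImplicit false

open Complex MeasureTheory Set Filter Topology
open Pool.Agent.W189.TP (DS)

namespace Pool.Agent.TH443.TXSum

open Pool.Agent.TH949.TX

theorem ee_eq (κ Y a v : ℝ) : EE κ Y a v =
    cexp (-(κ : ℂ) * (v : ℂ) ^ 2 + (I * (2 * κ * a + Y)) * v + (κ * a ^ 2 + a * Y)) := by
  rw [EE]
  congr 1
  linear_combination (-(κ : ℂ) * (v : ℂ) ^ 2 * (-1)) * Complex.I_sq

theorem ee_int {κ : ℝ} (hκ : 0 < κ) (Y a : ℝ) : Integrable (fun v : ℝ => EE κ Y a v) := by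
  simp_rw [ee_eq]
  exact integrable_cexp_quadratic (by simpa using hκ) _ _

theorem ee_cont (κ Y a : ℝ) : Continuous (fun v : ℝ => EE κ Y a v) := by
  unfold EE
  fun_prop

theorem ee_integral {κ : ℝ} (hκ : 0 < κ) (Y a : ℝ) :
    ∫ v : ℝ, EE κ Y a v = 2 * Real.pi * (gk κ Y : ℂ) := by
  simp_rw [ee_eq]
  rw [integral_cexp_quadratic (by simpa using hκ)]
  have hκ' : (κ : ℂ) ≠ 0 := by exact_mod_cast hκ.ne'
  have e1 : (κ : ℂ) * a ^ 2 + a * Y - (I * (2 * κ * a + Y)) ^ 2 / (4 * -(κ : ℂ)) =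
      ((-(Y ^ 2 / (4 * κ)) : ℝ) : ℂ) := by
    push_cast
    rw [mul_pow, Complex.I_sq]
    field_simp
    ring
  have e2 : ((Real.pi : ℂ) / - -(κ : ℂ)) ^ (1 / 2 : ℂ) = ((Real.sqrt (Real.pi / κ) : ℝ) : ℂ) := by
    rw [neg_neg, Real.sqrt_eq_rpow, Complex.ofReal_cpow (by positivity)]
    push_cast
    rfl
  rw [e1, e2, ← Complex.ofReal_exp, gk]
  have e3 : Real.sqrt (Real.pi / κ) = 2 * Real.pi * (Real.sqrt (4 * Real.pi * κ))⁻¹ := by
    have h1 : Real.sqrt (4 * Real.pi * κ) ≠ 0 := by positivity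
    rw [← div_eq_mul_inv, eq_div_iff h1, ← Real.sqrt_mul (by positivity)]
    have h2 : Real.pi / κ * (4 * Real.pi * κ) = (2 * Real.pi) ^ 2 := by
      field_simp
      ring
    rw [h2, Real.sqrt_sq (by positivity)]
  rw [e3]
  push_cast
  ring

theorem term_eq (d L a Y κ v : ℝ) (s' : ℂ) :
    ((d * L : ℝ) : ℂ) * cexp (-((s' + ((a : ℂ) + v * I)) * L)) * EE κ Y a v =
      ((d * L : ℝ) : ℂ) * cexp (-(s' * L)) * EE κ (Y - L) a v := by
  rw [EE, EE, mul_assoc, mul_assoc, ← Complex.exp_add, ← Complex.exp_add]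
  congr 2
  push_cast
  ring

theorem t_sum {ι : Type*} [Countable ι] {d L : ι → ℝ} {κ : ℝ} (hκ : 0 < κ) {s : ℂ} {a : ℝ}
    (hs : Summable fun i => |d i * L i| * Real.exp (-((s.re + a) * L i))) (Y : ℝ) :
    Continuous (fun v : ℝ => ZZ d L (s + ((a : ℂ) + v * I))) ∧
    (∀ v : ℝ, ‖ZZ d L (s + ((a : ℂ) + v * I))‖ ≤ ∑' i, |d i * L i| * Real.exp (-((s.re + a) * L i))) ∧
    Integrable (fun v : ℝ => ZZ d L (s + ((a : ℂ) + v * I)) * EE κ Y a v) ∧
    ∫ v : ℝ, ZZ d L (s + ((a : ℂ) + v * I)) * EE κ Y a v = 2 * Real.pi * JJ d L s κ Y := by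
  have hre : ∀ v : ℝ, (s + ((a : ℂ) + v * I)).re = s.re + a := fun v => by simp
  have hn : ∀ (i : ι) (v : ℝ), ‖((d i * L i : ℝ) : ℂ) *
      cexp (-((s + ((a : ℂ) + v * I)) * L i))‖ = |d i * L i| * Real.exp (-((s.re + a) * L i)) :=
    fun i v => by
      rw [Pool.Agent.W189.TP.norm_term (fun i => d i * L i) L _ i, hre]
  have hcont : Continuous (fun v : ℝ => ZZ d L (s + ((a : ℂ) + v * I))) := by
    unfold ZZ DS
    refine continuous_tsum (fun i => by fun_prop) hs fun i v => ?_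
    rw [hn]
  have hb : ∀ v : ℝ, ‖ZZ d L (s + ((a : ℂ) + v * I))‖ ≤
      ∑' i, |d i * L i| * Real.exp (-((s.re + a) * L i)) := by
    intro v
    refine tsum_of_norm_bounded hs.hasSum fun i => ?_
    rw [hn]
  refine ⟨hcont, hb, ?_, ?_⟩
  · exact (ee_int hκ Y a).bdd_mul hcont.aestronglyMeasurable (Eventually.of_forall hb)
  · have hF : ∀ i, Integrable (fun v : ℝ => ((d i * L i : ℝ) : ℂ) *
        cexp (-((s + ((a : ℂ) + v * I)) * L i)) * EE κ Y a v) := by
      intro i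
      simp_rw [term_eq (d i) (L i)]
      exact (ee_int hκ (Y - L i) a).const_mul _
    have hS : Summable fun i => ∫ v : ℝ, ‖((d i * L i : ℝ) : ℂ) *
        cexp (-((s + ((a : ℂ) + v * I)) * L i)) * EE κ Y a v‖ := by
      have : (fun i => ∫ v : ℝ, ‖((d i * L i : ℝ) : ℂ) *
          cexp (-((s + ((a : ℂ) + v * I)) * L i)) * EE κ Y a v‖) =
          fun i => |d i * L i| * Real.exp (-((s.re + a) * L i)) * ∫ v : ℝ, ‖EE κ Y a v‖ := by
        funext i
        rw [← integral_const_mul]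
        refine integral_congr_ae (Eventually.of_forall fun v => ?_)
        simp only
        rw [norm_mul, hn]
      rw [this]
      exact hs.mul_right _
    have h := hasSum_integral_of_summable_integral_norm hF hS
    have h1 : (fun v : ℝ => ∑' i, ((d i * L i : ℝ) : ℂ) *
        cexp (-((s + ((a : ℂ) + v * I)) * L i)) * EE κ Y a v) =
        fun v : ℝ => ZZ d L (s + ((a : ℂ) + v * I)) * EE κ Y a v := by
      funext v
      rw [tsum_mul_right]
      rfl
    rw [h1] at h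
    rw [← h.tsum_eq, JJ, ← tsum_mul_left]
    refine tsum_congr fun i => ?_
    simp_rw [term_eq (d i) (L i)]
    rw [integral_const_mul, ee_integral hκ]
    have h2 : gk κ (Y - L i) = gk κ (L i - Y) := by
      rw [gk, gk]
      congr 4
      ring
    rw [h2]
    ring

end Pool.Agent.TH443.TXSum
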